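import Mathlib
import Pool.Agent.R355.CanDeg2
import Pool.Agent.TH167.SH.Conv
import Pool.Agent.TH167.SH.Defs

set_option autoImplicit false

/-!
# Negative curves of given canonical degree: finitely many Weyl group orbits for all numbers of points

Let `X` be the blow-up of the complex projective plane at `s` very general points and let `C` be an
irreducible curve on `X` with `C ^ 2 = -k < 0`, not a `(-1)`-curve: these are the curves which have to
be excluded in Q1, as the closed cone of curves is generated by them, by the `(-1)`-curves and by the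
positive cone. Let `κ = K C`. Then `κ ≥ 3`, and finitely many reflections in classes
`H - E i - E j - E l` carry the class of `C` to the class `e H - ∑ u i E i` of an irreducible curve on
`X` with `e ≥ u i + u j + u l` for all distinct `i, j, l` such that

* the sum `σ` of all `u j` but the nine largest ones satisfies `κ + 1 ≤ σ ≤ 2 κ - 1`;
* at most `(κ + 1) / 2` and at most `(2 κ - 1) / k` of these `u j` are different from zero;
* `2 m (σ - κ) ≤ ∑ u j ^ 2 - k`, the sum over the same `j`, `m` the ninth largest multiplicity;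
* `e ≤ (3 κ ^ 2 + 6 κ + 6) / 2`.

So for given `κ` there are only finitely many possibilities for `e` and the nonzero `u j`, for all
numbers `s` of points together.
-/

namespace Pool.Agent.Results.MP_309968_ag.CanonicalDegree

open MvPolynomial Pool.Agent.TH167 Pool.Agent.TH167.SHDefs

/-- The reflection of the class `a = (d; w)`, `d H - ∑ w l E l`, in the class
`H - E (i 0) - E (i 1) - E (i 2)`: with `δ = d - w (i 0) - w (i 1) - w (i 2)`, the numbers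
`d`, `w (i 0)`, `w (i 1)`, `w (i 2)` are increased by `δ`. -/
def reflect {s : ℕ} (i : Fin 3 → Fin s) (a : ℤ × (Fin s → ℤ)) : ℤ × (Fin s → ℤ) :=
  (a.1 + (a.1 - a.2 (i 0) - a.2 (i 1) - a.2 (i 2)),
    fun l => a.2 l + if l = i 0 ∨ l = i 1 ∨ l = i 2 then a.1 - a.2 (i 0) - a.2 (i 1) - a.2 (i 2)
      else 0)

/-- Finitely many reflections carry the class `a` to `b`. -/
def Carries {s : ℕ} (a b : ℤ × (Fin s → ℤ)) : Prop :=
  Relation.ReflTransGen
    (fun a b : ℤ × (Fin s → ℤ) => ∃ i : Fin 3 → Fin s, Function.Injective i ∧ b = reflect i a) a b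

/-- The class `(e; u)` is standard: the degree is at least the sum of any three multiplicities. -/
def Standard {s : ℕ} (e : ℕ) (u : Fin s → ℕ) : Prop :=
  ∀ i j l : Fin s, i ≠ j → i ≠ l → j ≠ l → u i + u j + u l ≤ e

/-- The degree and the multiset of the nonzero multiplicities. -/
def shape {s : ℕ} (e : ℕ) (u : Fin s → ℕ) : ℕ × Multiset ℕ :=
  (e, (Finset.univ.val.map u).filter (· ≠ 0))

theorem result :
    -- (1) finiteness, for all numbers of points together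
    (∀ κ : ℕ, ∃ S : Finset (ℕ × Multiset ℕ), ∀ s : ℕ, 4 ≤ s →
      ∃ Z : ℕ → MvPolynomial (Fin s × Fin 2) ℂ, (∀ n, Z n ≠ 0) ∧
        ∀ P : Fin s → Fin 2 → ℂ,
          (∀ n, MvPolynomial.eval (fun ij : Fin s × Fin 2 => P ij.1 ij.2) (Z n) ≠ 0) →
          ∀ (d : ℕ) (w : Fin s → ℕ) (C : MvPolynomial (Fin 3) ℂ), Curve P C d w →
            ¬ MinusOne P C d w → inter d w d w < 0 → interK d w = κ →
            ∃ (e : ℕ) (u : Fin s → ℕ) (G : MvPolynomial (Fin 3) ℂ),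
              Carries ((d : ℤ), fun l => (w l : ℤ)) ((e : ℤ), fun l => (u l : ℤ)) ∧
              Curve P G e u ∧ Standard e u ∧ shape e u ∈ S) ∧
    -- (2) the explicit form
    ∀ s : ℕ, 4 ≤ s → ∃ Z : ℕ → MvPolynomial (Fin s × Fin 2) ℂ, (∀ n, Z n ≠ 0) ∧
      ∀ P : Fin s → Fin 2 → ℂ,
        (∀ n, MvPolynomial.eval (fun ij : Fin s × Fin 2 => P ij.1 ij.2) (Z n) ≠ 0) →
        ∀ (d : ℕ) (w : Fin s → ℕ) (C : MvPolynomial (Fin 3) ℂ) (k κ : ℤ), Curve P C d w →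
          ¬ MinusOne P C d w → inter d w d w = -k → 0 < k → interK d w = κ →
          3 ≤ κ ∧ ∃ (e : ℕ) (u : Fin s → ℕ) (G : MvPolynomial (Fin 3) ℂ),
            Carries ((d : ℤ), fun l => (w l : ℤ)) ((e : ℤ), fun l => (u l : ℤ)) ∧
            Curve P G e u ∧ Standard e u ∧ e ≤ d ∧ 2 * (e : ℤ) ≤ 3 * κ ^ 2 + 6 * κ + 6 ∧
            ∃ T : Finset (Fin s), T.card = 9 ∧ (∀ i ∈ T, ∀ j, j ∉ T → u j ≤ u i) ∧
              κ + 1 ≤ ∑ j ∈ Tᶜ, (u j : ℤ) ∧ ∑ j ∈ Tᶜ, (u j : ℤ) ≤ 2 * κ - 1 ∧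
              2 * ((Tᶜ.filter fun j => u j ≠ 0).card : ℤ) ≤ κ + 1 ∧
              k * ((Tᶜ.filter fun j => u j ≠ 0).card : ℤ) ≤ 2 * κ - 1 ∧
              ∃ i ∈ T, 2 * (u i : ℤ) * (∑ j ∈ Tᶜ, (u j : ℤ) - κ) ≤
                ∑ j ∈ Tᶜ, (u j : ℤ) ^ 2 - k := by
  refine ⟨fun κ => ?_, fun s hs => ?_⟩
  · obtain ⟨S, hS⟩ := Pool.Agent.R355.CanDeg.finite_shapes κ
    refine ⟨S, fun s hs => ?_⟩
    obtain ⟨r, rfl⟩ : ∃ r, s = r + 4 := ⟨s - 4, by omega⟩
    obtain ⟨Z, hZ, h⟩ := SH.exists_fam (Fin (r + 4) × Fin 2)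
    refine ⟨Z, hZ, fun P hP0 d w C hC hne hneg hκ => ?_⟩
    have hP := (h _).1 hP0
    obtain ⟨h1, h2, h3⟩ := SH.curve_iff.1 hC
    have hne' : ¬ (SH.ip d w d w = -1 ∧ SH.kk d w = 1) := fun h0 =>
      hne ⟨hC, by rw [SH.inter_eq, h0.1], by rw [SH.interK_eq, h0.2]⟩
    rw [SH.inter_eq] at hneg
    rw [SH.interK_eq] at hκ
    obtain ⟨e, u, a1, ⟨⟨G, g1, g2, g3⟩, -⟩, a3, a4⟩ :=
      hS r P hP d w ⟨⟨C, h1, h2, h3⟩, hne'⟩ hneg (by linarith)
    exact ⟨e, u, G, a1, SH.curve_iff.2 ⟨g1, g2, g3⟩, a3, a4⟩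
  · obtain ⟨r, rfl⟩ : ∃ r, s = r + 4 := ⟨s - 4, by omega⟩
    obtain ⟨Z, hZ, h⟩ := SH.exists_fam (Fin (r + 4) × Fin 2)
    refine ⟨Z, hZ, fun P hP0 d w C k κ hC hne hk hk0 hκ => ?_⟩
    have hP := (h _).1 hP0
    obtain ⟨h1, h2, h3⟩ := SH.curve_iff.1 hC
    have hne' : ¬ (SH.ip d w d w = -1 ∧ SH.kk d w = 1) := fun h0 =>
      hne ⟨hC, by rw [SH.inter_eq, h0.1], by rw [SH.interK_eq, h0.2]⟩
    rw [SH.inter_eq] at hk
    rw [SH.interK_eq] at hκ
    obtain ⟨b0, e, u, a1, ⟨⟨G, g1, g2, g3⟩, -⟩, a3, a4, -, -, a5, T, c1, c2, c3, c4, c5, c6, c7⟩ :=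
      Pool.Agent.R355.CanDeg.main hP ⟨⟨C, h1, h2, h3⟩, hne'⟩ hk hk0 (by linarith)
    exact ⟨b0, e, u, G, a1, SH.curve_iff.2 ⟨g1, g2, g3⟩, a3, a4, a5, T, c1, c2, c3, c4, c5, c6, c7⟩

end Pool.Agent.Results.MP_309968_ag.CanonicalDegree
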