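import Mathlib
import Pool.Agent.R355.ConeAct
import Pool.Agent.TH167.SH.Defs

set_option autoImplicit false

/-!
# Cremona orbits of nef rays on very general blow-ups of the plane

Let `X` be the blow-up of the complex projective plane at `n ≥ 10` very general points.

* The set of the classes of the irreducible curves and the closed cone of curves of `X` are
  invariant under the reflections in the classes `H - E i - E j - E l`; so is the nef cone.
* For every set `T` of at least nine of the points every class in the orbit of
  `√|T| H - ∑_{i ∈ T} E i` under the group generated by these reflections is nef, of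
  self-intersection zero.
* If `T` has at least ten elements then the orbit contains classes of arbitrarily large degree and no
  two different classes of the orbit are proportional, so that `X` has infinitely many nef rays on the
  boundary of the positive cone from every such set `T`; they are irrational if `|T|` is not a square.

This holds for all `n ≥ 10`, including `n = 10`.  The proof: Nagata's theorem (in the starting
library); a quadratic transformation carries an irreducible curve to an irreducible curve at other
generic points, and an automorphism of the complex numbers carries these points back.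
-/

namespace Pool.Agent.Results.MP_309968_ag.CremonaOrbitRays

open Pool.Agent.R355.ConeAct

theorem result (n : ℕ) (hn : 10 ≤ n) :
    ∃ f : ℕ → MvPolynomial (Fin n × Fin 2) ℂ, (∀ k, f k ≠ 0) ∧
      ∀ P : Fin n → Fin 2 → ℂ,
        (∀ k, MvPolynomial.eval (fun q : Fin n × Fin 2 => P q.1 q.2) (f k) ≠ 0) →
        -- (1) invariance of the set of curve classes, of the cone of curves and of the nef cone
        (∀ i : Fin 3 → Fin n, Function.Injective i →
          (∀ x, refl i x ∈ curveClasses P ↔ x ∈ curveClasses P) ∧
          (∀ x, refl i x ∈ curvCone P ↔ x ∈ curvCone P) ∧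
          ∀ D, (∀ x ∈ curvCone P, 0 ≤ dot D x) ↔ ∀ x ∈ curvCone P, 0 ≤ dot (refl i D) x) ∧
        -- (2) the orbits of the Nagata classes
        (∀ T : Finset (Fin n), 9 ≤ T.card → ∀ D, Carries (nagata T) D →
          dot D D = 0 ∧ ∀ x ∈ curvCone P, 0 ≤ dot D x) ∧
        -- (3) they are infinite, and consist of different rays, irrational if `|T|` is not a square
        ∀ T : Finset (Fin n), 10 ≤ T.card →
          (∀ M : ℝ, ∃ D, Carries (nagata T) D ∧ M ≤ D.1) ∧
          (∀ D D', Carries (nagata T) D → Carries (nagata T) D' → ∀ c : ℝ, D' = c • D → D' = D) ∧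
          (¬ IsSquare T.card → ∀ D, Carries (nagata T) D → ∀ (c : ℝ) (R : ℚ × (Fin n → ℚ)),
            D ≠ c • (((R.1 : ℚ) : ℝ), fun l => ((R.2 l : ℚ) : ℝ))) := by
  obtain ⟨f, hf, h⟩ := Pool.Agent.TH167.SH.exists_fam (Fin n × Fin 2)
  refine ⟨f, hf, fun P hP0 => ?_⟩
  have hP := (h _).1 hP0
  refine ⟨fun i hi => ⟨fun x => ⟨fun hx => ?_, gen_refl hP hi⟩, fun x => cone_refl_iff hP hi,
    fun D => ⟨fun hD x hx => ?_, fun hD x hx => ?_⟩⟩, fun T hT D hD => ?_, fun T hT => ?_⟩
  · have := gen_refl hP hi hx
    rwa [refl_refl] at this
  · have h3 := hD _ (cone_refl hP hi hx)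
    rw [← dot_refl hi, refl_refl] at h3
    exact h3
  · have h3 := hD _ (cone_refl hP hi hx)
    rwa [dot_refl hi] at h3
  · obtain ⟨h1, h2, -⟩ := nef_carries hP hD (nagata_nef hP hT)
    rw [nagata_self] at h2
    exact ⟨h2, h1⟩
  · have hs : 3 < Real.sqrt T.card := by
      rw [show (3 : ℝ) = Real.sqrt 9 by
        rw [show (9 : ℝ) = 3 ^ 2 by norm_num, Real.sqrt_sq (by norm_num)]]
      refine Real.sqrt_lt_sqrt (by norm_num) ?_
      have : (10 : ℝ) ≤ T.card := by exact_mod_cast hT
      linarith
    refine ⟨fun M => ?_, fun D D' hD hD' c hc => ?_, fun hsq D hD c R => ?_⟩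
    · refine exists_large hn ?_ (nagata_self T).ge M
      show 0 < Real.sqrt T.card
      linarith
    · have k1 := (nef_carries hP hD (nagata_nef hP (by omega))).2.2
      have k2 := (nef_carries hP hD' (nagata_nef hP (by omega))).2.2
      rw [nagata_kap] at k1 k2
      have k3 : kap D' = c * kap D := by
        rw [hc]
        exact kap_smul c D
      rw [k1, k2] at k3
      have k4 : 0 < Real.sqrt T.card * (Real.sqrt T.card - 3) :=
        mul_pos (by linarith) (by linarith)
      have k5 : c = 1 := by
        have : (c - 1) * (Real.sqrt T.card * (Real.sqrt T.card - 3)) = 0 := by linarith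
        rcases mul_eq_zero.1 this with h0 | h0
        · linarith
        · exact absurd h0 k4.ne'
      rw [hc, k5, one_smul]
    · exact orbit_irrational T hsq hD c R

end Pool.Agent.Results.MP_309968_ag.CremonaOrbitRays
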