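import Mathlib
import Pool.Agent.R355.ConePoly
import Pool.Agent.TH167.SH.Defs

set_option autoImplicit false

/-!
# Uniform polyhedral approximation of the cone of curves of blow-ups of the plane

Let `X` be the blow-up of the complex projective plane at `n = s + 1` arbitrary distinct points of
the affine plane and let `T ≥ 1`.  There are at most `2 n (2 T + 1) ^ (n - 1) + n` irreducible curves
with negative self-intersection on `X` which together with the classes `y` with `y ^ 2 ≥ - (y H) ^ 2 / T ^ 2`,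
`y H ≥ 0`, generate a closed cone containing the closed cone of curves.  The bound does not depend
on the position of the points.
-/

namespace Pool.Agent.Results.MP_309968_ag.PolyhedralApproximation

open Pool.Agent.R355.ConeAct

theorem result (s : ℕ) (P : Fin (s + 1) → Fin 2 → ℂ) (hP : Function.Injective P) (T : ℝ)
    (hT : 1 ≤ T) : ∃ N : Finset (ℝ × (Fin (s + 1) → ℝ)),
      (N.card : ℝ) ≤ 2 * (s + 1) * (2 * T + 1) ^ s + (s + 1) ∧
      (∀ c ∈ N, c ∈ curveClasses P ∧ dot c c < 0) ∧
      ∀ x ∈ curvCone P, ∃ (y : ℝ × (Fin (s + 1) → ℝ)) (a : ℝ × (Fin (s + 1) → ℝ) → ℝ),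
        (∀ c, 0 ≤ a c) ∧ x = y + ∑ c ∈ N, a c • c ∧ 0 ≤ y.1 ∧
        T ^ 2 * ∑ l, y.2 l ^ 2 ≤ (T ^ 2 + 1) * y.1 ^ 2 :=
  Pool.Agent.R355.ConePoly.approx hP hT

end Pool.Agent.Results.MP_309968_ag.PolyhedralApproximation
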