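import Mathlib
import Pool.Agent.R355.Round2
import Pool.Agent.TH167.SH.Defs

set_option autoImplicit false

/-!
# A nefness criterion, and the shape of the nef cone near the rays `-K_9`

Let `X` be the blow-up of the complex projective plane at `n ≥ 10` very general points. Q1 is
equivalent to: a real class `D` of nonnegative degree with `D ^ 2 ≥ 0` which is nonnegative on the
`(-1)`-curves is nef. Here this is proved for the classes `D = x H - ∑ y i E i` satisfying one of the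
following for a set `T` of `t` of the points; let `q = x ^ 2 - ∑_{i ∈ T} y i ^ 2` and
`a = ∑_{i ∉ T} y i ^ 2`, so that `D ^ 2 = q - a`:

* (A) `t ≤ 9` and `(40 - 4 t) a ≤ (39 - 4 t) q`; in particular `39 x ^ 2 ≥ 40 ∑ y i ^ 2` (`t = 0`) and
  `3 q ≥ 4 a` (`t = 9`);
* (B) `t = 9`, `p := 3 x - ∑_{i ∈ T} y i > 0`, `q ≥ 0` and `(1 + 2 p / √q) a ≤ q`.

When `D` tends to the ray of the class `-K_T = 3 H - ∑_{i ∈ T} E i` on the boundary of the positive
cone, `p / √q` tends to zero: by (B) the boundaries of the nef cone and of the positive cone have the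
same second order behaviour at this ray, inside of the region cut out by the `(-1)`-curves. For
instance the class of degree `√(9 + τ² + 3 τ³)` with nine multiplicities `1` and further nonnegative
multiplicities of sum of squares `τ² ≤ 1` is nef (degree `√(9 + τ²)` is necessary). The same holds for
all images of these classes under the group generated by the reflections in `H - E i - E j - E l`.

The proof: for an irreducible curve `C`, not a `(-1)`-curve, with `C ^ 2 = -k < 0` at least ten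
multiplicities are `≥ 4` (starting library) and `≥ k` (Xu, Ein-Lazarsfeld), and it meets `-K_T`
positively; the rest is a computation in the hyperbolic lattice.
-/

namespace Pool.Agent.Results.MP_309968_ag.RoundNearAnticanonical

open Pool.Agent.R355.ConeAct (curveClasses curvCone dot kap Carries)

/-- `q = x ^ 2 - ∑_{i ∈ T} y i ^ 2`. -/
def inner {n : ℕ} (D : ℝ × (Fin n → ℝ)) (T : Finset (Fin n)) : ℝ := D.1 ^ 2 - ∑ i ∈ T, D.2 i ^ 2

/-- `a = ∑_{i ∉ T} y i ^ 2`. -/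
def outer {n : ℕ} (D : ℝ × (Fin n → ℝ)) (T : Finset (Fin n)) : ℝ := ∑ i ∈ Tᶜ, D.2 i ^ 2

/-- `p = 3 x - ∑_{i ∈ T} y i`, the intersection number with `3 H - ∑_{i ∈ T} E i`. -/
def anti {n : ℕ} (D : ℝ × (Fin n → ℝ)) (T : Finset (Fin n)) : ℝ := 3 * D.1 - ∑ i ∈ T, D.2 i

/-- Condition (A) or condition (B). -/
def Crit {n : ℕ} (D : ℝ × (Fin n → ℝ)) (T : Finset (Fin n)) : Prop :=
  (T.card ≤ 9 ∧ (40 - 4 * (T.card : ℝ)) * outer D T ≤ (39 - 4 * (T.card : ℝ)) * inner D T) ∨
  (T.card = 9 ∧ 0 < anti D T ∧ 0 ≤ inner D T ∧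
    (Real.sqrt (inner D T) + 2 * anti D T) * outer D T ≤ Real.sqrt (inner D T) ^ 3)

/-- The classes of the `(-1)`-curves. -/
def excClasses {n : ℕ} (P : Fin n → Fin 2 → ℂ) : Set (ℝ × (Fin n → ℝ)) :=
  {C | C ∈ curveClasses P ∧ dot C C = -1 ∧ kap C = -1}

/-- The class is nef. -/
def Nef {n : ℕ} (P : Fin n → Fin 2 → ℂ) (D : ℝ × (Fin n → ℝ)) : Prop :=
  ∀ x ∈ curvCone P, 0 ≤ dot D x

open Pool.Agent.R355 in
theorem result (n : ℕ) (hn : 10 ≤ n) :
    ∃ f : ℕ → MvPolynomial (Fin n × Fin 2) ℂ, (∀ k, f k ≠ 0) ∧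
      ∀ P : Fin n → Fin 2 → ℂ,
        (∀ k, MvPolynomial.eval (fun q : Fin n × Fin 2 => P q.1 q.2) (f k) ≠ 0) →
        -- (1) the criterion
        (∀ (D : ℝ × (Fin n → ℝ)) (T : Finset (Fin n)), 0 ≤ D.1 → Crit D T →
          (∀ C ∈ curveClasses P, C ∉ excClasses P → 0 ≤ dot D C) ∧
          (Nef P D ↔ ∀ C ∈ excClasses P, 0 ≤ dot D C) ∧
          (Nef P D → ∀ D', Carries D D' → Nef P D')) ∧
        -- (2) standard classes and their orbits
        (∀ (D : ℝ × (Fin n → ℝ)) (T : Finset (Fin n)), Crit D T → (∀ i, 0 ≤ D.2 i) →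
          (∀ a b c, a ≠ b → a ≠ c → b ≠ c → D.2 a + D.2 b + D.2 c ≤ D.1) →
          ∀ D', Carries D D' → dot D' D' = dot D D ∧ Nef P D') ∧
        -- (3) nine points of weight one
        ∀ (T : Finset (Fin n)) (y : Fin n → ℝ) (τ : ℝ), T.card = 9 → 0 < τ → τ ≤ 1 →
          (∀ i, 0 ≤ y i) → (∀ i ∈ T, y i = 1) → ∑ i ∈ Tᶜ, y i ^ 2 = τ ^ 2 →
          ∀ D', Carries (Real.sqrt (9 + τ ^ 2 + 3 * τ ^ 3), y) D' → Nef P D' := by
  obtain ⟨r, rfl⟩ : ∃ r, n = r + 4 := ⟨n - 4, by omega⟩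
  obtain ⟨f, hf, h⟩ := Pool.Agent.TH167.SH.exists_fam (Fin (r + 4) × Fin 2)
  refine ⟨f, hf, fun P hP0 => ?_⟩
  have hP := (h _).1 hP0
  have key : ∀ (D : ℝ × (Fin (r + 4) → ℝ)) (T : Finset (Fin (r + 4))), Crit D T →
      Round.CritA D T ∨ Round.CritB D T := fun D T hc => hc
  refine ⟨fun D T hD hc => ⟨fun C hC hne => ?_, ⟨fun hN C hC => ?_, fun hE => ?_⟩,
    fun hN D' hD' => (ConeAct.nef_carries hP hD' hN).1⟩, fun D T hc h0 h3 D' hD' => ?_,
    fun T y τ hT hτ hτ1 hy0 hyT hy D' hD' => ?_⟩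
  · rcases hC with ⟨G, d, w, hG, rfl⟩ | ⟨i, rfl⟩
    · obtain ⟨g1, g2, g3⟩ := Pool.Agent.TH167.SH.curve_iff.1 hG
      refine Round.crit_curve hP g1 g2 g3 (fun hne' => hne ?_) hD (key D T hc)
      obtain ⟨h1, h2⟩ := Round.cast_ip hne'.1 hne'.2
      exact ⟨Or.inl ⟨G, d, w, hG, rfl⟩, h1, h2⟩
    · refine absurd ⟨Or.inr ⟨i, rfl⟩, ?_, ?_⟩ hne
      · unfold dot
        simp [Pi.single_apply]
      · unfold kap
        simp [Pi.single_apply]
  · exact hN C (subset_closure (Submodule.subset_span hC.1))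
  · exact ConeAct.nef_of_gen (Round.nef_crit hP hD (fun C h1 h2 h3 => hE C ⟨h1, h2, h3⟩)
      (key D T hc))
  · have hD : 0 ≤ D.1 := by
      obtain ⟨a, b, c, hab, hac, hbc, -⟩ := Round.top_three (n := r + 4) (by omega) D.2
      have := h3 a b c hab hac hbc
      linarith [h0 a, h0 b, h0 c]
    have hN := ConeAct.nef_of_gen (Round.nef_crit hP hD (Round.std_exc h0 h3) (key D T hc))
    obtain ⟨h1, h2, -⟩ := ConeAct.nef_carries hP hD' hN
    exact ⟨h2, h1⟩
  · exact (ConeAct.nef_carries hP hD' (ConeAct.nef_of_gen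
      (Round.nine_weights hP hT hτ hτ1 hy0 hyT hy))).1

end Pool.Agent.Results.MP_309968_ag.RoundNearAnticanonical
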